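import Pool.Agent.P8H99.GO.Stm

set_option autoImplicit false

namespace Pool.Agent.P8H61.OD

open Finset
open Pool.Agent.Results.MP_ac85ec_co.FourLevels (IsOrder Lt Covers IsGrade GradedWithLevels a ord)
open Pool.Agent.P8H99.GO

variable {n : ℕ} {l l' : Fin n → ℕ} {c c' : Fin n → Finset (Fin n)}

lemma ord_cases (h : ∀ p, ∀ x ∈ c p, l x + 1 = l p) {x y : Fin n} (hxy : ord c x y) :
    x = y ∨ (x ∈ c y) ∨ (∃ w, ord c x w ∧ x ≠ w ∧ w ∈ c y ∧ l x < l w) := by
  induction hxy with
  | refl => exact Or.inl rfl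
  | @tail b y hb hby ih =>
    by_cases hxb : x = b
    · subst hxb; exact Or.inr (Or.inl hby)
    · refine Or.inr (Or.inr ⟨b, hb, hxb, hby, ?_⟩)
      rcases ih with h1 | h1 | ⟨w, -, -, hw, hlw⟩
      · exact absurd h1 hxb
      · have := h b x h1; omega
      · have := h b w hw; omega

lemma ord_lt (h : ∀ p, ∀ x ∈ c p, l x + 1 = l p) {x y : Fin n} (hxy : ord c x y) (hne : x ≠ y) :
    l x < l y := by
  rcases ord_cases h hxy with h1 | h1 | ⟨w, -, -, hw, hlw⟩
  · exact absurd h1 hne
  · have := h y x h1; omega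
  · have := h y w hw; omega

/-- the cover sets are the lower covers -/
lemma mem_iff (h : ∀ p, ∀ x ∈ c p, l x + 1 = l p) (x y : Fin n) : x ∈ c y ↔ Covers (ord c) x y := by
  constructor
  · intro hx
    have hl := h y x hx
    refine ⟨⟨Relation.ReflTransGen.single hx, ?_⟩, ?_⟩
    · rintro rfl; omega
    · rintro ⟨w, hw1, hw2⟩
      have h1 := ord_lt h hw1.1 hw1.2
      have h2 := ord_lt h hw2.1 hw2.2
      omega
  · intro hc
    rcases ord_cases h hc.1.1 with h1 | h1 | ⟨w, how, hne, hw, hlw⟩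
    · exact absurd h1 hc.1.2
    · exact h1
    · exfalso
      apply hc.2
      refine ⟨w, ⟨how, hne⟩, ⟨Relation.ReflTransGen.single hw, ?_⟩⟩
      rintro rfl
      have := h w w hw
      omega

theorem unq : S_UNQ := by
  intro k n l l' c c' b h h' e
  have hc : c = c' := by
    funext y
    ext x
    rw [mem_iff h.1 x y, mem_iff h'.1 x y, e]
  refine ⟨?_, hc⟩
  subst hc
  have key : ∀ p q, Relation.EqvGen (fun x y => x ∈ c y) p q → (l p : ℤ) - l q = (l' p : ℤ) - l' q := by
    intro p q hpq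
    induction hpq with
    | rel x y hxy =>
      have h1 := h.1 y x hxy
      have h2 := h'.1 y x hxy
      omega
    | refl x => omega
    | symm x y _ ih => omega
    | trans x y z _ _ ih1 ih2 => omega
  funext p
  have h1 := key p b (h.2.2.1 p)
  have h2 := h.2.1
  have h3 := h'.2.1
  omega

end Pool.Agent.P8H61.OD
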